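import Pool.Agent.Helper25.HL.Goals2

/-!
# Packet HL-CH4: a tail bound
-/

set_option autoImplicit false

noncomputable section

namespace Pool.Agent.Helper58.HL

open _root_.Pool.Agent.Helper25.HL

theorem norm_le_of_GI {Z q : ℕ} {β : Fin q → ℂ} (h : GI Z β) : l1 β ≤ Z ∧ ∀ t, ‖β t‖ ≤ Z := by
  obtain ⟨a, b, h1, h2⟩ := h
  have h3 : ∀ t, ‖β t‖ ≤ ((|a t| + |b t| : ℤ) : ℝ) := by
    intro t
    rw [h1 t]
    refine (norm_add_le _ _).trans ?_
    rw [norm_mul, Complex.norm_I, mul_one]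
    push_cast
    have e1 : ‖(a t : ℂ)‖ = |(a t : ℝ)| := by
      rw [Complex.norm_intCast]
    have e2 : ‖(b t : ℂ)‖ = |(b t : ℝ)| := by
      rw [Complex.norm_intCast]
    rw [e1, e2]
  have h4 : l1 β ≤ Z := by
    unfold l1
    refine (Finset.sum_le_sum fun t _ ↦ h3 t).trans ?_
    rw [← Int.cast_sum]
    exact_mod_cast h2
  refine ⟨h4, fun t ↦ le_trans ?_ h4⟩
  unfold l1
  exact Finset.single_le_sum (f := fun t ↦ ‖β t‖) (fun t _ ↦ norm_nonneg _) (Finset.mem_univ t)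

theorem sq_le_of_GI {Z q : ℕ} {β : Fin q → ℂ} (h : GI Z β) : _root_.Pool.Agent.Helper25.HL.sq β ≤ (Z : ℝ) ^ 2 := by
  obtain ⟨h1, h2⟩ := norm_le_of_GI h
  unfold _root_.Pool.Agent.Helper25.HL.sq
  have h3 : ∀ t ∈ (Finset.univ : Finset (Fin q)), ‖β t‖ ^ 2 ≤ Z * ‖β t‖ := by
    intro t _
    rw [pow_two]
    exact mul_le_mul_of_nonneg_right (h2 t) (norm_nonneg _)
  refine (Finset.sum_le_sum h3).trans ?_
  rw [← Finset.mul_sum, pow_two]
  exact mul_le_mul_of_nonneg_left h1 (Nat.cast_nonneg Z)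

theorem disj_sum {N q : ℕ} {γ : Fin N → Fin q → ℂ} (hd : Disj γ) (c : Fin N → ℂ) (t : Fin q) :
    ‖∑ i, c i * γ i t‖ ^ 2 = ∑ i, ‖c i‖ ^ 2 * ‖γ i t‖ ^ 2 := by
  by_cases h : ∃ i, γ i t ≠ 0
  · obtain ⟨i, hi⟩ := h
    have h1 : ∀ j, j ≠ i → γ j t = 0 := fun j hj ↦ (hd i j (Ne.symm hj) t).resolve_left hi
    rw [Finset.sum_eq_single i, Finset.sum_eq_single i]
    · rw [norm_mul, mul_pow]
    · intro j _ hj
      rw [h1 j hj]
      simp
    · intro h2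
      exact absurd (Finset.mem_univ _) h2
    · intro j _ hj
      rw [h1 j hj, mul_zero]
    · intro h2
      exact absurd (Finset.mem_univ _) h2
  · push Not at h
    simp [h]

variable {p q N D Z : ℕ}

/-- The combination of the samples. -/
def psi (γ : Fin N → Fin q → ℂ) (f : Fin D → Fin N → ℂ) (k : Fin D) (t : Fin q) : ℂ :=
  ∑ i, f k i * γ i t

theorem z_eq (γ : Fin N → Fin q → ℂ) (f : Fin D → Fin N → ℂ) (σ : Fin p → Fin q → Bool)
    (a : Fin p) (k : Fin D) :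
    ∑ i, f k i * RV σ (γ i) a = ∑ t, ((Rm σ a t : ℝ) : ℂ) * psi γ f k t := by
  unfold psi
  have h : ∀ i, f k i * RV σ (γ i) a = ∑ t, ((Rm σ a t : ℝ) : ℂ) * (f k i * γ i t) := by
    intro i
    show f k i * (∑ t, (Rm σ a t : ℂ) * γ i t) = _
    rw [Finset.mul_sum]
    refine Finset.sum_congr rfl fun t _ ↦ ?_
    ring
  rw [Finset.sum_congr rfl fun i _ ↦ h i, Finset.sum_comm]
  refine Finset.sum_congr rfl fun t _ ↦ ?_
  rw [Finset.mul_sum]

/-- The coefficients of the linear forms. -/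
def BB (p : ℕ) (γ : Fin N → Fin q → ℂ) (f : Fin D → Fin N → ℂ) (κ : (Fin p × Fin D) × Bool)
    (x : Fin p × Fin q) : ℝ :=
  if x.1 = κ.1.1 then
    (if κ.2 then (psi γ f κ.1.2 x.2).re else (psi γ f κ.1.2 x.2).im) / Real.sqrt p
  else 0

theorem lin_form (γ : Fin N → Fin q → ℂ) (f : Fin D → Fin N → ℂ) (σ : Fin p → Fin q → Bool)
    (a : Fin p) (k : Fin D) :
    (∑ x : Fin p × Fin q, BB p γ f ((a, k), true) x * sg (σ x.1 x.2)) =
      (∑ i, f k i * RV σ (γ i) a).re ∧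
    (∑ x : Fin p × Fin q, BB p γ f ((a, k), false) x * sg (σ x.1 x.2)) =
      (∑ i, f k i * RV σ (γ i) a).im := by
  have hsum : ∀ F : Fin q → ℝ, (∑ x : Fin p × Fin q, (if x.1 = a then F x.2 / Real.sqrt p
      else 0) * sg (σ x.1 x.2)) = ∑ t, Rm σ a t * F t := by
    intro F
    rw [Fintype.sum_prod_type, Finset.sum_eq_single a]
    · refine Finset.sum_congr rfl fun t _ ↦ ?_
      rw [if_pos rfl]
      unfold Rm sg
      ring
    · intro a' _ ha'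
      refine Finset.sum_eq_zero fun t _ ↦ ?_
      rw [if_neg ha', zero_mul]
    · intro h2
      exact absurd (Finset.mem_univ _) h2
  rw [z_eq]
  constructor
  · rw [Complex.re_sum]
    have : ∀ t ∈ (Finset.univ : Finset (Fin q)), (((Rm σ a t : ℝ) : ℂ) * psi γ f k t).re =
        Rm σ a t * (psi γ f k t).re := fun t _ ↦ Complex.re_ofReal_mul _ _
    rw [Finset.sum_congr rfl this, ← hsum]
    rfl
  · rw [Complex.im_sum]
    have : ∀ t ∈ (Finset.univ : Finset (Fin q)), (((Rm σ a t : ℝ) : ℂ) * psi γ f k t).im =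
        Rm σ a t * (psi γ f k t).im := fun t _ ↦ Complex.im_ofReal_mul _ _
    rw [Finset.sum_congr rfl this, ← hsum]
    rfl

theorem bessel (hp : 1 ≤ p) (γ : Fin N → Fin q → ℂ) (f : Fin D → Fin N → ℂ)
    (hγ : ∀ i, GI Z (γ i)) (hd : Disj γ)
    (hf : ∀ g : Fin D → ℂ, ∑ i, ‖∑ k, g k * f k i‖ ^ 2 ≤ ∑ k, ‖g k‖ ^ 2)
    (g : (Fin p × Fin D) × Bool → ℝ) :
    ∑ x : Fin p × Fin q, (∑ κ, g κ * BB p γ f κ x) ^ 2 ≤ (Z : ℝ) ^ 2 / p * ∑ κ, (g κ) ^ 2 := by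
  have hp0 : (0 : ℝ) < p := by exact_mod_cast hp
  have hsp : Real.sqrt p ^ 2 = p := Real.sq_sqrt hp0.le
  have hsp0 : 0 < Real.sqrt p := Real.sqrt_pos.2 hp0
  let G : Fin p → Fin D → ℂ := fun a k ↦ ⟨g ((a, k), true), -g ((a, k), false)⟩
  have e1 : ∀ x : Fin p × Fin q, ∑ κ, g κ * BB p γ f κ x =
      (∑ k, G x.1 k * psi γ f k x.2).re / Real.sqrt p := by
    rintro ⟨a, t⟩
    rw [Fintype.sum_prod_type, Fintype.sum_prod_type, Finset.sum_eq_single a]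
    · rw [Complex.re_sum, Finset.sum_div]
      refine Finset.sum_congr rfl fun k _ ↦ ?_
      rw [Fintype.sum_bool]
      unfold BB
      simp only [if_true, Bool.false_eq_true, if_false]
      rw [Complex.mul_re]
      simp only [G]
      ring
    · intro a' _ ha'
      refine Finset.sum_eq_zero fun k _ ↦ ?_
      refine Finset.sum_eq_zero fun b _ ↦ ?_
      unfold BB
      rw [if_neg (Ne.symm ha'), mul_zero]
    · intro h2
      exact absurd (Finset.mem_univ _) h2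
  have e2 : ∀ x : Fin p × Fin q, (∑ κ, g κ * BB p γ f κ x) ^ 2 ≤
      ‖∑ k, G x.1 k * psi γ f k x.2‖ ^ 2 / p := by
    intro x
    rw [e1, div_pow, hsp]
    apply div_le_div_of_nonneg_right _ hp0.le
    rw [← sq_abs]
    exact pow_le_pow_left₀ (abs_nonneg _) (Complex.abs_re_le_norm _) 2
  have e3 : ∀ a : Fin p, ∑ t, ‖∑ k, G a k * psi γ f k t‖ ^ 2 ≤
      (Z : ℝ) ^ 2 * ∑ k, ‖G a k‖ ^ 2 := by
    intro a
    have e4 : ∀ t, ∑ k, G a k * psi γ f k t = ∑ i, (∑ k, G a k * f k i) * γ i t := by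
      intro t
      unfold psi
      have : ∀ k, G a k * ∑ i, f k i * γ i t = ∑ i, (G a k * f k i) * γ i t := by
        intro k
        rw [Finset.mul_sum]
        refine Finset.sum_congr rfl fun i _ ↦ ?_
        ring
      rw [Finset.sum_congr rfl fun k _ ↦ this k, Finset.sum_comm]
      refine Finset.sum_congr rfl fun i _ ↦ ?_
      rw [Finset.sum_mul]
    have e5 : ∑ t, ‖∑ k, G a k * psi γ f k t‖ ^ 2 =
        ∑ i, ‖∑ k, G a k * f k i‖ ^ 2 * _root_.Pool.Agent.Helper25.HL.sq (γ i) := by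
      have : ∀ t, ‖∑ k, G a k * psi γ f k t‖ ^ 2 =
          ∑ i, ‖∑ k, G a k * f k i‖ ^ 2 * ‖γ i t‖ ^ 2 := by
        intro t
        rw [e4, disj_sum hd]
      rw [Finset.sum_congr rfl fun t _ ↦ this t, Finset.sum_comm]
      refine Finset.sum_congr rfl fun i _ ↦ ?_
      unfold _root_.Pool.Agent.Helper25.HL.sq
      rw [Finset.mul_sum]
    rw [e5]
    have e6 : ∑ i, ‖∑ k, G a k * f k i‖ ^ 2 * _root_.Pool.Agent.Helper25.HL.sq (γ i) ≤
        ∑ i, ‖∑ k, G a k * f k i‖ ^ 2 * (Z : ℝ) ^ 2 :=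
      Finset.sum_le_sum fun i _ ↦ mul_le_mul_of_nonneg_left (sq_le_of_GI (hγ i)) (by positivity)
    refine e6.trans ?_
    rw [← Finset.sum_mul, mul_comm]
    exact mul_le_mul_of_nonneg_left (hf _) (by positivity)
  calc ∑ x : Fin p × Fin q, (∑ κ, g κ * BB p γ f κ x) ^ 2
      ≤ ∑ x : Fin p × Fin q, ‖∑ k, G x.1 k * psi γ f k x.2‖ ^ 2 / p :=
        Finset.sum_le_sum fun x _ ↦ e2 x
    _ = (∑ a, ∑ t, ‖∑ k, G a k * psi γ f k t‖ ^ 2) / p := by
        rw [← Finset.sum_div, Fintype.sum_prod_type]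
    _ ≤ (∑ a, (Z : ℝ) ^ 2 * ∑ k, ‖G a k‖ ^ 2) / p :=
        div_le_div_of_nonneg_right (Finset.sum_le_sum fun a _ ↦ e3 a) hp0.le
    _ = (Z : ℝ) ^ 2 / p * ∑ κ, (g κ) ^ 2 := by
        rw [← Finset.mul_sum, Fintype.sum_prod_type, Fintype.sum_prod_type]
        have : ∀ a k, ‖G a k‖ ^ 2 = ∑ b, g ((a, k), b) ^ 2 := by
          intro a k
          rw [Fintype.sum_bool, Complex.sq_norm, Complex.normSq_mk]
          ring
        simp only [this]
        ring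

theorem ch4 (h1 : S_MG) : S_CH4 := by
  classical
  intro p q N D Z γ f hp hZ hγ hd hf x
  have hp0 : (0 : ℝ) < p := by exact_mod_cast hp
  have hZ0 : (0 : ℝ) < Z := by exact_mod_cast hZ
  have hs : 0 < (Z : ℝ) ^ 2 / p := by positivity
  have hMG := h1 (Fin p × Fin q) ((Fin p × Fin D) × Bool) (BB p γ f) ((Z : ℝ) ^ 2 / p) hs
    (bessel hp γ f hγ hd hf)
  have e1 : ∀ σ : Fin p → Fin q → Bool,
      (∑ κ, (∑ y, BB p γ f κ y * sg (σ y.1 y.2)) ^ 2) / (4 * ((Z : ℝ) ^ 2 / p)) =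
      (∑ a, ∑ k, ‖∑ i, f k i * RV σ (γ i) a‖ ^ 2) * p / (4 * (Z : ℝ) ^ 2) := by
    intro σ
    have e2 : ∑ κ, (∑ y, BB p γ f κ y * sg (σ y.1 y.2)) ^ 2 =
        ∑ a, ∑ k, ‖∑ i, f k i * RV σ (γ i) a‖ ^ 2 := by
      rw [Fintype.sum_prod_type, Fintype.sum_prod_type]
      refine Finset.sum_congr rfl fun a _ ↦ Finset.sum_congr rfl fun k _ ↦ ?_
      rw [Fintype.sum_bool, (lin_form γ f σ a k).1, (lin_form γ f σ a k).2, Complex.sq_norm,
        Complex.normSq_apply]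
      ring
    rw [e2]
    field_simp
  have e3 : ∑ ω : Fin p × Fin q → Bool,
      Real.exp ((∑ κ, (∑ y, BB p γ f κ y * sg (ω y)) ^ 2) / (4 * ((Z : ℝ) ^ 2 / p))) =
      ∑ σ : Fin p → Fin q → Bool,
        Real.exp ((∑ a, ∑ k, ‖∑ i, f k i * RV σ (γ i) a‖ ^ 2) * p / (4 * (Z : ℝ) ^ 2)) := by
    refine Fintype.sum_equiv (Equiv.curry (Fin p) (Fin q) Bool) _ _ fun ω ↦ ?_
    rw [← e1]
    rfl
  rw [e3] at hMG
  set P : (Fin p → Fin q → Bool) → Prop := fun σ ↦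
    x ≤ ∑ a, ∑ k, ‖∑ i, f k i * RV σ (γ i) a‖ ^ 2 with hP
  have e4 : (cnt P : ℝ) * Real.exp (x * p / (4 * (Z : ℝ) ^ 2)) ≤
      ∑ σ : Fin p → Fin q → Bool,
        Real.exp ((∑ a, ∑ k, ‖∑ i, f k i * RV σ (γ i) a‖ ^ 2) * p / (4 * (Z : ℝ) ^ 2)) := by
    unfold cnt
    rw [← nsmul_eq_mul, ← Finset.sum_const]
    refine (Finset.sum_le_sum (g := fun σ : Fin p → Fin q → Bool ↦
      Real.exp ((∑ a, ∑ k, ‖∑ i, f k i * RV σ (γ i) a‖ ^ 2) * p / (4 * (Z : ℝ) ^ 2)))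
      fun σ hσ ↦ ?_).trans
      (Finset.sum_le_sum_of_subset_of_nonneg (Finset.filter_subset _ _)
        fun σ _ _ ↦ (Real.exp_pos _).le)
    rw [Finset.mem_filter] at hσ
    apply Real.exp_le_exp.2
    apply div_le_div_of_nonneg_right _ (by positivity)
    exact mul_le_mul_of_nonneg_right hσ.2 hp0.le
  have e5 : (2 : ℝ) ^ Fintype.card (Fin p × Fin q) *
      (2 : ℝ) ^ Fintype.card ((Fin p × Fin D) × Bool) = (2 : ℝ) ^ (p * q) * (4 : ℝ) ^ (p * D) := by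
    rw [Fintype.card_prod, Fintype.card_prod, Fintype.card_prod, Fintype.card_fin,
      Fintype.card_fin, Fintype.card_fin, Fintype.card_bool, mul_comm (p * D) 2, pow_mul 2 2]
    norm_num
  rw [e5] at hMG
  rw [Real.exp_neg, ← div_eq_mul_inv, le_div_iff₀ (Real.exp_pos _)]
  exact e4.trans hMG

end Pool.Agent.Helper58.HL
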